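import Pool.Agent.H27.Iso13

open MeasureTheory Pool.Agent.H27

namespace Pool.Agent.Results.MP_21f5b8_an.Infinite

/-- For `N ≥ 3` and `2 < q < 2*` some bounded connected open set has infinitely many
`q`-eigenvalues with a nonnegative eigenfunction. -/
theorem result (N : ℕ) (hN : 3 ≤ N) (q : ℝ) (hq : 2 < q) (hqN : ((N : ℝ) - 2) * q < 2 * N) :
    ∃ Ω : Set (EuclideanSpace ℝ (Fin N)), IsOpen Ω ∧ Bornology.IsBounded Ω ∧ IsConnected Ω ∧
      QSpec.Adm Ω q ∧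
      {l : ℝ | ∃ u G, QSpec.D12 Ω q u G ∧ eLpNorm u (ENNReal.ofReal q) volume = 1 ∧
        (∀ᵐ x, 0 ≤ u x) ∧ ∀ v F, QSpec.D12 Ω q v F →
          ∫ x, inner ℝ (G x) (F x) = l * ∫ x, |u x| ^ (q - 2) * u x * v x}.Infinite := by
  obtain ⟨Ω, h1, h2, h3, D, hD, h4⟩ := Iso.comb_example hN hq hqN
  refine ⟨Ω, h1, h2, h3, Iso.adm_bdd (by omega) hq hqN h2,
    Set.infinite_of_not_bddAbove fun ⟨M, hM⟩ => ?_⟩
  obtain ⟨h, l, l1, l2⟩ := h4 (M + 1)
  have := hM (a := l) ⟨_, _, hD.to_W (Or.inr rfl) h, (hD.one_iff (Iso.rep_self h)).2 l1.eig.one,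
    by simpa only [hD.eq] using l1.nn, fun v F hv => by
      obtain ⟨k, r⟩ := hD.hP.of_W (by simpa using (by linarith : 0 < q)) hv
      exact hD.weak (Iso.rep_self h) r l1.eig⟩
  linarith

end Pool.Agent.Results.MP_21f5b8_an.Infinite
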